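import Pool.Agent.U398.MV.Stm3b

/-!
# Project MV3, package TR (helper780): powers of prime polynomials are in the class `Trig`
-/

set_option autoImplicit false

namespace Pool.Agent.U780.MV3.TR

open MeasureTheory Filter Topology Set Complex
open Pool.Agent.U398.MV

lemma log_sep {x y : ℕ} (hx : 1 ≤ x) (hxy : x < y) {M : ℝ} (hM : (y : ℝ) ≤ M) :
    M⁻¹ ≤ Real.log y - Real.log x := by
  have hx0 : (0 : ℝ) < x := by exact_mod_cast hx
  have hxy1 : (x : ℝ) + 1 ≤ y := by exact_mod_cast hxy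
  have hy0 : (0 : ℝ) < y := by linarith
  have h1 : 1 - ((y : ℝ) / x)⁻¹ ≤ Real.log (y / x) :=
    Real.one_sub_inv_le_log_of_pos (by positivity)
  rw [Real.log_div hy0.ne' hx0.ne', inv_div] at h1
  refine le_trans ?_ h1
  have h2 : (y : ℝ)⁻¹ ≤ 1 - x / y := by
    rw [inv_eq_one_div, le_sub_iff_add_le, ← add_div, div_le_one hy0]
    linarith
  exact (inv_anti₀ hy0 hM).trans h2

lemma small {T : ℝ} (hT : 1 ≤ T) {N : ℕ} (hN : (N : ℝ) ≤ T ^ (1 / 16 : ℝ)) {q : ℕ × ℕ}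
    (h1 : 1 ≤ q.1) (h2 : q.1 ≤ N) (h3 : 1 ≤ q.2) (h4 : q.2 ≤ N) :
    |Real.log q.1 - Real.log q.2| ≤ Real.log T / 8 := by
  have hT0 : 0 < T := by linarith
  have hL : 0 ≤ Real.log T := Real.log_nonneg hT
  have aux : ∀ a : ℕ, 1 ≤ a → a ≤ N → 0 ≤ Real.log a ∧ Real.log a ≤ Real.log T / 16 := by
    intro a ha haN
    have h5 : (1 : ℝ) ≤ a := by exact_mod_cast ha
    have h6 : (a : ℝ) ≤ T ^ (1 / 16 : ℝ) := le_trans (by exact_mod_cast haN) hN
    refine ⟨Real.log_nonneg h5, ?_⟩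
    have h7 := Real.log_le_log (by linarith) h6
    rw [Real.log_rpow hT0] at h7
    linarith
  obtain ⟨a1, a2⟩ := aux q.1 h1 h2
  obtain ⟨b1, b2⟩ := aux q.2 h3 h4
  rw [abs_le]
  constructor <;> linarith

lemma sep {T : ℝ} (hT : 1 ≤ T) {N : ℕ} (hN : (N : ℝ) ≤ T ^ (1 / 16 : ℝ)) {q q' : ℕ × ℕ}
    (h1 : 1 ≤ q.1) (h2 : q.1 ≤ N) (h3 : 1 ≤ q.2) (h4 : q.2 ≤ N) (h5 : Nat.Coprime q.1 q.2)
    (h1' : 1 ≤ q'.1) (h2' : q'.1 ≤ N) (h3' : 1 ≤ q'.2) (h4' : q'.2 ≤ N)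
    (h5' : Nat.Coprime q'.1 q'.2) (hne : q ≠ q') :
    T ^ (-(1 / 8) : ℝ) ≤
      |(Real.log q.1 - Real.log q.2) - (Real.log q'.1 - Real.log q'.2)| := by
  have hT0 : 0 < T := by linarith
  have hpos : ∀ a : ℕ, 1 ≤ a → (a : ℝ) ≠ 0 := fun a ha => by
    have : (1 : ℝ) ≤ a := by exact_mod_cast ha
    linarith
  have hxy : q.1 * q'.2 ≠ q'.1 * q.2 := by
    intro h
    apply hne
    have e1 : q.1 ∣ q'.1 := h5.dvd_of_dvd_mul_right (Dvd.intro _ h)
    have e2 : q'.1 ∣ q.1 := h5'.dvd_of_dvd_mul_right (Dvd.intro _ h.symm)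
    have e3 : q.1 = q'.1 := Nat.dvd_antisymm e1 e2
    have e4 : q.2 = q'.2 := by
      rw [e3] at h
      exact (Nat.eq_of_mul_eq_mul_left h1' h).symm
    exact Prod.ext e3 e4
  have hM : ∀ a b : ℕ, a ≤ N → b ≤ N → ((a * b : ℕ) : ℝ) ≤ T ^ (1 / 8 : ℝ) := by
    intro a b ha hb
    have e1 : (a : ℝ) ≤ T ^ (1 / 16 : ℝ) := le_trans (by exact_mod_cast ha) hN
    have e2 : (b : ℝ) ≤ T ^ (1 / 16 : ℝ) := le_trans (by exact_mod_cast hb) hN
    have e3 : T ^ (1 / 8 : ℝ) = T ^ (1 / 16 : ℝ) * T ^ (1 / 16 : ℝ) := by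
      rw [← Real.rpow_add hT0]
      norm_num
    rw [e3, Nat.cast_mul]
    exact mul_le_mul e1 e2 (Nat.cast_nonneg _) (by positivity)
  have key : ∀ x y : ℕ, 1 ≤ x → x < y → (y : ℝ) ≤ T ^ (1 / 8 : ℝ) →
      T ^ (-(1 / 8) : ℝ) ≤ Real.log y - Real.log x := by
    intro x y hx hxy hy
    rw [Real.rpow_neg hT0.le]
    exact log_sep hx hxy hy
  have hlog : (Real.log q.1 - Real.log q.2) - (Real.log q'.1 - Real.log q'.2) =
      Real.log ((q.1 * q'.2 : ℕ) : ℝ) - Real.log ((q'.1 * q.2 : ℕ) : ℝ) := by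
    rw [Nat.cast_mul, Nat.cast_mul, Real.log_mul (hpos _ h1) (hpos _ h3'),
      Real.log_mul (hpos _ h1') (hpos _ h3)]
    ring
  rw [hlog]
  rcases lt_or_gt_of_ne hxy with h | h
  · have := key _ _ (Nat.mul_pos h1 h3') h (hM _ _ h2' h4)
    rw [abs_sub_comm]
    exact this.trans (le_abs_self _)
  · have := key _ _ (Nat.mul_pos h1' h3) h (hM _ _ h2 h4')
    exact this.trans (le_abs_self _)

theorem t_TR : S_SP → S_TR := by
  intro hSP k
  obtain ⟨Ck, hCk, hk⟩ := hSP k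
  obtain ⟨C0, hC0, h0⟩ := hSP 0
  refine ⟨1 / (16 * (2 * k + 1)), Ck + C0, by positivity, ?_, by linarith, ?_⟩
  · rw [div_le_div_iff₀ (by positivity) (by norm_num)]
    have : (0 : ℝ) ≤ k := Nat.cast_nonneg k
    linarith
  intro δ hδ hδ0
  refine ⟨1, fun T hT α hα => ?_⟩
  have hT0 : 0 < T := by linarith
  set X : ℕ := ⌊T ^ δ⌋₊ with hX
  have hX0 : (X : ℝ) ≤ T ^ δ := Nat.floor_le (by positivity)
  have hδk : δ * (2 * k + 1) ≤ 1 / 16 := by
    have h1 := mul_le_mul_of_nonneg_right hδ0 (show (0 : ℝ) ≤ 2 * k + 1 by positivity)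
    refine h1.trans (le_of_eq ?_)
    field_simp
  have hXk : (X : ℝ) ^ (2 * k + 1) ≤ T ^ (1 / 16 : ℝ) := by
    calc (X : ℝ) ^ (2 * k + 1) ≤ (T ^ δ) ^ (2 * k + 1) :=
          pow_le_pow_left₀ (Nat.cast_nonneg _) hX0 _
      _ = T ^ (δ * (2 * k + 1)) := by
          rw [← Real.rpow_natCast, ← Real.rpow_mul hT0.le]
          push_cast
          rfl
      _ ≤ T ^ (1 / 16 : ℝ) := Real.rpow_le_rpow_of_exponent_le hT hδk
  have hX1 : (X : ℝ) ^ (2 * 0 + 1) ≤ T ^ (1 / 16 : ℝ) := by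
    have hδ1 : δ ≤ 1 / 16 := by
      have : (0 : ℝ) ≤ k := Nat.cast_nonneg k
      nlinarith
    calc (X : ℝ) ^ (2 * 0 + 1) = X := by norm_num
      _ ≤ T ^ δ := hX0
      _ ≤ T ^ (1 / 16 : ℝ) := Real.rpow_le_rpow_of_exponent_le hT hδ1
  have h168 : T ^ (1 / 16 : ℝ) ≤ T ^ (1 / 8 : ℝ) :=
    Real.rpow_le_rpow_of_exponent_le hT (by norm_num)
  have hV : 0 ≤ Vq X α := Finset.sum_nonneg fun p _ => by positivity
  constructor
  · obtain ⟨Λ, g, hΛ, hrep, hmass, hdens⟩ := hk X α hα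
    have hN : ((X ^ (2 * k + 1) : ℕ) : ℝ) ≤ T ^ (1 / 16 : ℝ) := by
      rw [Nat.cast_pow]
      exact hXk
    refine ⟨Λ, fun q => Real.log q.1 - Real.log q.2, g, ?_, hrep, ?_, ?_, ?_, ?_⟩
    · have h1 : 1 ≤ (1 + Vq X α) ^ k := one_le_pow₀ (by linarith)
      nlinarith
    · intro q hq
      obtain ⟨a1, a2, a3, a4, a5⟩ := hΛ q hq
      exact small hT hN a1 a2 a3 a4
    · intro q hq q' hq' hne
      obtain ⟨a1, a2, a3, a4, a5⟩ := hΛ q hq
      obtain ⟨b1, b2, b3, b4, b5⟩ := hΛ q' hq'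
      exact sep hT hN a1 a2 a3 a4 a5 b1 b2 b3 b4 b5 hne
    · exact hmass.trans (hXk.trans h168)
    · intro u
      refine (hdens u).trans ?_
      have h1 : Vq X α ^ (2 * k) ≤ (1 + Vq X α) ^ (2 * k) :=
        pow_le_pow_left₀ hV (by linarith) _
      have h2 : 0 ≤ (1 + Vq X α) ^ (2 * k) := by positivity
      have h3 : Ck ≤ (Ck + C0) ^ 2 := by nlinarith
      have h4 : Ck * Vq X α ^ (2 * k) ≤ ((Ck + C0) * (1 + Vq X α) ^ k) ^ 2 := by
        rw [mul_pow, ← pow_mul, mul_comm k 2]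
        exact mul_le_mul h3 h1 (by positivity) (by positivity)
      exact div_le_div_of_nonneg_right h4 (by positivity)
  · obtain ⟨Λ, g, hΛ, hrep, hmass, hdens⟩ := h0 X (fun _ => 1) (fun _ => by simp)
    have hN : ((X ^ (2 * 0 + 1) : ℕ) : ℝ) ≤ T ^ (1 / 16 : ℝ) := by
      rw [Nat.cast_pow]
      exact hX1
    have hπ : (1 : ℝ) ≤ Real.pi := by linarith [Real.pi_gt_three]
    have hnorm : ∀ q, ‖((1 / Real.pi : ℝ) : ℂ) * g q‖ ≤ ‖g q‖ := by
      intro q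
      rw [norm_mul, Complex.norm_real, Real.norm_eq_abs, abs_of_nonneg (by positivity)]
      have h1 : 1 / Real.pi ≤ 1 := by
        rw [div_le_one (by positivity)]
        exact hπ
      exact mul_le_of_le_one_left (norm_nonneg _) h1
    refine ⟨Λ, fun q => Real.log q.1 - Real.log q.2, fun q => ((1 / Real.pi : ℝ) : ℂ) * g q,
      by linarith, ?_, ?_, ?_, ?_, ?_⟩
    · intro t
      have h1 := hrep t
      rw [show 2 * 0 + 1 = 1 from rfl, pow_one] at h1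
      unfold Pp
      rw [Complex.ofReal_mul, h1, Finset.mul_sum]
      refine Finset.sum_congr rfl fun q _ => ?_
      exact (mul_assoc _ _ _).symm
    · intro q hq
      obtain ⟨a1, a2, a3, a4, a5⟩ := hΛ q hq
      exact small hT hN a1 a2 a3 a4
    · intro q hq q' hq' hne
      obtain ⟨a1, a2, a3, a4, a5⟩ := hΛ q hq
      obtain ⟨b1, b2, b3, b4, b5⟩ := hΛ q' hq'
      exact sep hT hN a1 a2 a3 a4 a5 b1 b2 b3 b4 b5 hne
    · exact (Finset.sum_le_sum fun q _ => hnorm q).trans (hmass.trans (hX1.trans h168))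
    · intro u
      have h1 : ∑ q ∈ Λ, (if |(Real.log q.1 - Real.log q.2) - u| ≤ 1 then
          ‖((1 / Real.pi : ℝ) : ℂ) * g q‖ ^ 2 else 0) ≤
          ∑ q ∈ Λ, (if |(Real.log q.1 - Real.log q.2) - u| ≤ 1 then ‖g q‖ ^ 2 else 0) := by
        refine Finset.sum_le_sum fun q _ => ?_
        split_ifs
        · exact pow_le_pow_left₀ (norm_nonneg _) (hnorm q) 2
        · exact le_rfl
      refine h1.trans ((hdens u).trans ?_)
      rw [mul_zero, pow_zero, mul_one]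
      have h3 : C0 ≤ (Ck + C0) ^ 2 := by nlinarith
      exact div_le_div_of_nonneg_right h3 (by positivity)

end Pool.Agent.U780.MV3.TR
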